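import Mathlib
import Pool.Agent.Lib_helper76.LD.Defs2

/-!
Block FA: perturbation to general position keeping strict signs.
-/

set_option autoImplicit false

namespace Pool.Agent.Lib_helper76.LD

open Finset

/-- for invertible `V`, `det (A + ε V)` vanishes for finitely many `ε` -/
theorem fa_finite {r : ℕ} (A V : Matrix (Fin r) (Fin r) ℝ) (hV : V.det ≠ 0) :
    {ε : ℝ | (A + ε • V).det = 0}.Finite := by
  have hu : IsUnit V.det := isUnit_iff_ne_zero.mpr hV
  have key : ∀ ε : ℝ, (A + ε • V).det = ((-(A * V⁻¹)).charpoly.eval ε) * V.det := by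
    intro ε
    rw [Matrix.eval_charpoly, ← Matrix.det_mul]
    congr 1
    rw [sub_neg_eq_add, add_mul, Matrix.mul_assoc, Matrix.nonsing_inv_mul V hu, Matrix.mul_one]
    rw [add_comm]
    congr 1
    ext i j
    simp [Matrix.scalar_apply]
  have hp : (-(A * V⁻¹)).charpoly ≠ 0 := (Matrix.charpoly_monic _).ne_zero
  refine ((-(A * V⁻¹)).charpoly.roots.toFinset.finite_toSet).subset ?_
  intro ε hε
  have h1 : (-(A * V⁻¹)).charpoly.eval ε = 0 := by
    have h2 : (A + ε • V).det = 0 := hε
    rw [key ε] at h2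
    exact (mul_eq_zero.mp h2).resolve_right hV
  simp only [Finset.mem_coe, Multiset.mem_toFinset]
  exact (Polynomial.mem_roots hp).mpr h1

theorem gen_pos_pr {X I : Type} [Fintype X] [Fintype I] (r : ℕ) (A : X → Fin r → ℝ)
    (B : Fin r → I → ℝ) (s : X → I → ℝ) (h : ∀ x i, 0 < s x i * ∑ j, A x j * B j i) :
    ∃ A' : X → Fin r → ℝ, (∀ x i, 0 < s x i * ∑ j, A' x j * B j i) ∧
      ∀ e : Fin r → X, Function.Injective e →
        (Matrix.of fun i j : Fin r => A' (e i) j).det ≠ 0 := by
  classical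
  let t : X → ℝ := fun x => ((Fintype.equivFin X x : ℕ) : ℝ)
  have ht : Function.Injective t := by
    intro x y hxy
    have h1 : (Fintype.equivFin X x : ℕ) = (Fintype.equivFin X y : ℕ) :=
      Nat.cast_injective (R := ℝ) hxy
    exact (Fintype.equivFin X).injective (Fin.ext h1)
  let A' : ℝ → X → Fin r → ℝ := fun ε x j => A x j + ε * t x ^ (j : ℕ)
  -- the signs
  have h1 : ∀ᶠ ε : ℝ in nhds 0, ∀ x i, 0 < s x i * ∑ j, A' ε x j * B j i := by
    rw [Filter.eventually_all]
    intro x
    rw [Filter.eventually_all]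
    intro i
    have hc : Continuous fun ε : ℝ => s x i * ∑ j, A' ε x j * B j i := by
      refine continuous_const.mul (continuous_finsetSum _ fun j _ => ?_)
      exact (continuous_const.add (continuous_id.mul continuous_const)).mul continuous_const
    have h0 : 0 < (fun ε : ℝ => s x i * ∑ j, A' ε x j * B j i) 0 := by
      simpa [A'] using h x i
    exact hc.continuousAt.eventually (lt_mem_nhds h0)
  -- the bad set
  let bad : Set ℝ := ⋃ e : {e : Fin r → X // Function.Injective e},
    {ε : ℝ | (Matrix.of fun i j : Fin r => A' ε (e.1 i) j).det = 0}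
  have hbad : bad.Finite := by
    refine Set.finite_iUnion fun e => ?_
    have hV : (Matrix.vandermonde fun i => t (e.1 i)).det ≠ 0 := by
      rw [Matrix.det_vandermonde_ne_zero_iff]
      exact ht.comp e.2
    have := fa_finite (Matrix.of fun i j : Fin r => A (e.1 i) j)
      (Matrix.vandermonde fun i => t (e.1 i)) hV
    refine this.subset ?_
    intro ε hε
    have h2 : (Matrix.of fun i j : Fin r => A' ε (e.1 i) j).det = 0 := hε
    show (Matrix.of (fun i j : Fin r => A (e.1 i) j) +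
      ε • Matrix.vandermonde fun i => t (e.1 i)).det = 0
    rw [← h2]
    congr 1
  have h2 : ∀ᶠ ε : ℝ in nhds 0, ε ∉ bad \ {0} := by
    have h3 : IsClosed (bad \ {0}) := (hbad.subset Set.sdiff_subset).isClosed
    exact h3.isOpen_compl.mem_nhds (by simp)
  obtain ⟨ε, ⟨hε1, hε2⟩, hε3⟩ : ∃ ε : ℝ, ((∀ x i, 0 < s x i * ∑ j, A' ε x j * B j i) ∧
      ε ∉ bad \ {0}) ∧ ε ≠ 0 := by
    have h4 := (h1.and h2).filter_mono (nhdsWithin_le_nhds (s := {0}ᶜ))
    have h5 : ∀ᶠ ε : ℝ in nhdsWithin 0 {0}ᶜ, ε ≠ 0 := by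
      filter_upwards [self_mem_nhdsWithin] with ε hε
      exact hε
    exact (h4.and h5).exists
  refine ⟨A' ε, hε1, fun e he hdet => hε2 ⟨?_, hε3⟩⟩
  exact Set.mem_iUnion.mpr ⟨⟨e, he⟩, hdet⟩

end Pool.Agent.Lib_helper76.LD
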