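import Mathlib
import Pool.Agent.Lib_helper76.LD.Defs2

/-!
Block FB: radial isotropic position.
-/

set_option autoImplicit false

namespace Pool.Agent.Lib_helper76.LD

open Finset Matrix

noncomputable section

/-- the matrix `M t` -/
def fb_M {X : Type} [Fintype X] {r : ℕ} (A : X → Fin r → ℝ) (t : X → ℝ) :
    Matrix (Fin r) (Fin r) ℝ := ∑ x, Real.exp (t x) • vecMulVec (A x) (A x)

theorem fb_M_quad {X : Type} [Fintype X] {r : ℕ} (A : X → Fin r → ℝ) (t : X → ℝ)
    (y : Fin r → ℝ) : y ⬝ᵥ (fb_M A t *ᵥ y) = ∑ x, Real.exp (t x) * (A x ⬝ᵥ y) ^ 2 := by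
  unfold fb_M
  rw [Matrix.sum_mulVec, dotProduct_sum]
  refine Finset.sum_congr rfl fun x _ => ?_
  rw [Matrix.smul_mulVec, dotProduct_smul, Matrix.vecMulVec_mulVec, smul_eq_mul]
  rw [op_smul_eq_smul, dotProduct_smul, smul_eq_mul, dotProduct_comm y (A x)]
  ring

theorem fb_M_herm {X : Type} [Fintype X] {r : ℕ} (A : X → Fin r → ℝ) (t : X → ℝ) :
    (fb_M A t).IsHermitian := by
  unfold fb_M Matrix.IsHermitian
  rw [Matrix.conjTranspose_sum]
  refine Finset.sum_congr rfl fun x _ => ?_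
  ext i j
  simp [Matrix.conjTranspose_apply, Matrix.vecMulVec_apply, mul_comm]

/-- a symmetric matrix which dominates the identity has determinant `≥ 1` -/
theorem fb_det_ge_one {r : ℕ} (M : Matrix (Fin r) (Fin r) ℝ) (hM : M.IsHermitian)
    (h : ∀ y : Fin r → ℝ, y ⬝ᵥ y ≤ y ⬝ᵥ (M *ᵥ y)) : 1 ≤ M.det := by
  rw [hM.det_eq_prod_eigenvalues]
  have h1 : ∀ i, 1 ≤ hM.eigenvalues i := by
    intro i
    have h2 := h (hM.eigenvectorBasis i)
    rw [hM.mulVec_eigenvectorBasis i, dotProduct_smul, smul_eq_mul] at h2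
    have h3 : (⇑(hM.eigenvectorBasis i) : Fin r → ℝ) ⬝ᵥ ⇑(hM.eigenvectorBasis i) = 1 := by
      have h4 := hM.eigenvectorBasis.orthonormal.1 i
      have h5 : inner ℝ (hM.eigenvectorBasis i) (hM.eigenvectorBasis i) = (1 : ℝ) := by
        rw [real_inner_self_eq_norm_sq, h4]; norm_num
      rw [EuclideanSpace.inner_eq_star_dotProduct] at h5
      simpa using h5
    rw [h3] at h2
    linarith
  have : ∏ i : Fin r, (1 : ℝ) ≤ ∏ i, hM.eigenvalues i :=
    Finset.prod_le_prod (fun _ _ => by norm_num) fun i _ => h1 i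
  simpa using this

/-- the lower bound for `det M` -/
theorem fb_det_ge {X : Type} [Fintype X] {r : ℕ} (A : X → Fin r → ℝ) (t : X → ℝ)
    (e : Fin r → X) (he : Function.Injective e)
    (hdet : (Matrix.of fun i j : Fin r => A (e i) j).det ≠ 0) :
    (Matrix.of fun i j : Fin r => A (e i) j).det ^ 2 * Real.exp (∑ i, t (e i)) ≤
      (fb_M A t).det := by
  classical
  set E : Matrix (Fin r) (Fin r) ℝ := Matrix.of fun i j : Fin r => A (e i) j with hE
  set D : Matrix (Fin r) (Fin r) ℝ := Matrix.diagonal fun i => Real.exp (t (e i) / 2) with hD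
  set B := D * E with hB
  have hDdet : D.det = Real.exp (∑ i, t (e i) / 2) := by
    rw [hD, Matrix.det_diagonal, Real.exp_sum]
  have hBdet : B.det = Real.exp (∑ i, t (e i) / 2) * E.det := by
    rw [hB, Matrix.det_mul, hDdet]
  have hB0 : B.det ≠ 0 := by
    rw [hBdet]; exact mul_ne_zero (Real.exp_pos _).ne' hdet
  have hBu : IsUnit B.det := isUnit_iff_ne_zero.mpr hB0
  -- `M' = B⁻ᵀ M B⁻¹`
  set M' := (B⁻¹)ᵀ * fb_M A t * B⁻¹ with hM'
  have hherm : M'.IsHermitian := by
    have h1 := Matrix.isHermitian_conjTranspose_mul_mul B⁻¹ (fb_M_herm A t)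
    simpa [Matrix.conjTranspose_eq_transpose_of_trivial] using h1
  have hquad : ∀ y : Fin r → ℝ, y ⬝ᵥ y ≤ y ⬝ᵥ (M' *ᵥ y) := by
    intro y
    set z := B⁻¹ *ᵥ y with hz
    have h1 : y ⬝ᵥ (M' *ᵥ y) = z ⬝ᵥ (fb_M A t *ᵥ z) := by
      rw [hM', ← Matrix.mulVec_mulVec, ← Matrix.mulVec_mulVec, ← hz,
        Matrix.dotProduct_mulVec y, Matrix.vecMul_transpose, ← hz]
    have h2 : B *ᵥ z = y := by
      rw [hz, Matrix.mulVec_mulVec, Matrix.mul_nonsing_inv B hBu, Matrix.one_mulVec]
    rw [h1, fb_M_quad]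
    have h3 : y ⬝ᵥ y = ∑ i, Real.exp (t (e i)) * (A (e i) ⬝ᵥ z) ^ 2 := by
      rw [← h2]
      unfold dotProduct
      refine Finset.sum_congr rfl fun i _ => ?_
      have h4 : (B *ᵥ z) i = Real.exp (t (e i) / 2) * (A (e i) ⬝ᵥ z) := by
        rw [hB, ← Matrix.mulVec_mulVec, hD, Matrix.mulVec_diagonal]
        rfl
      rw [h4]
      have h5 : Real.exp (t (e i)) = Real.exp (t (e i) / 2) * Real.exp (t (e i) / 2) := by
        rw [← Real.exp_add]; ring_nf
      rw [h5]
      show _ = _ * (A (e i) ⬝ᵥ z) ^ 2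
      ring
    rw [h3]
    have h6 : ∑ i, Real.exp (t (e i)) * (A (e i) ⬝ᵥ z) ^ 2 =
        ∑ x ∈ Finset.univ.image e, Real.exp (t x) * (A x ⬝ᵥ z) ^ 2 := by
      rw [Finset.sum_image fun _ _ _ _ h => he h]
    rw [h6]
    exact Finset.sum_le_sum_of_subset_of_nonneg (Finset.subset_univ _)
      fun x _ _ => by positivity
  have h1 := fb_det_ge_one M' hherm hquad
  have h2 : M'.det * B.det ^ 2 = (fb_M A t).det := by
    rw [hM', Matrix.det_mul, Matrix.det_mul, Matrix.det_transpose, Matrix.det_nonsing_inv,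
      Ring.inverse_eq_inv']
    field_simp
  have h3 : B.det ^ 2 = E.det ^ 2 * Real.exp (∑ i, t (e i)) := by
    rw [hBdet, mul_pow, mul_comm]
    congr 1
    rw [← Real.exp_nat_mul, ← Finset.sum_div]
    congr 1
    push_cast
    ring
  rw [← h3, ← h2]
  have h4 : 0 ≤ B.det ^ 2 := sq_nonneg _
  nlinarith

/-- the exchange argument -/
theorem fb_exchange {X : Type} [Fintype X] (r : ℕ) (hr : 1 ≤ r) (hX : r < Fintype.card X)
    (t : X → ℝ) : ∃ e : Fin r → X, Function.Injective e ∧ ∀ a b : X,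
      (t a - t b) / Fintype.card X ≤
        ∑ i, t (e i) - ((r : ℝ) / Fintype.card X) * ∑ x, t x := by
  classical
  have hne : Nonempty {e : Fin r → X // Function.Injective e} := by
    obtain ⟨f⟩ : Nonempty (Fin r ↪ X) := by
      rw [Function.Embedding.nonempty_iff_card_le]
      simpa using hX.le
    exact ⟨⟨f, f.injective⟩⟩
  obtain ⟨⟨e, he⟩, hmax⟩ := Finite.exists_max
    (fun e : {e : Fin r → X // Function.Injective e} => ∑ i, t (e.1 i))
  refine ⟨e, he, ?_⟩
  have hN : (0 : ℝ) < Fintype.card X := by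
    have : 0 < Fintype.card X := by omega
    exact_mod_cast this
  -- exchange
  have hex : ∀ (i : Fin r) (x : X), x ∉ Set.range e → t x ≤ t (e i) := by
    intro i x hx
    have hinj : Function.Injective (Function.update e i x) := by
      intro a b hab
      by_cases ha : a = i
      · by_cases hb : b = i
        · rw [ha, hb]
        · exfalso
          rw [ha, Function.update_self, Function.update_of_ne hb] at hab
          exact hx ⟨b, hab.symm⟩
      · by_cases hb : b = i
        · exfalso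
          rw [hb, Function.update_self, Function.update_of_ne ha] at hab
          exact hx ⟨a, hab⟩
        · rw [Function.update_of_ne ha, Function.update_of_ne hb] at hab
          exact he hab
    have h1 := hmax ⟨Function.update e i x, hinj⟩
    simp only at h1
    have h2 : ∑ j, t (Function.update e i x j) = ∑ j, t (e j) - t (e i) + t x := by
      rw [← Finset.add_sum_erase _ _ (Finset.mem_univ i), Function.update_self,
        ← Finset.add_sum_erase Finset.univ (fun j => t (e j)) (Finset.mem_univ i)]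
      have h3 : ∑ j ∈ Finset.univ.erase i, t (Function.update e i x j) =
          ∑ j ∈ Finset.univ.erase i, t (e j) := by
        refine Finset.sum_congr rfl fun j hj => ?_
        rw [Function.update_of_ne (Finset.ne_of_mem_erase hj)]
      rw [h3]; ring
    rw [h2] at h1
    linarith
  obtain ⟨x₁, hx₁⟩ : ∃ x, x ∉ Set.range e := by
    by_contra hcon
    push Not at hcon
    have hs : Function.Surjective e := hcon
    have := Fintype.card_le_of_surjective e hs
    rw [Fintype.card_fin] at this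
    omega
  intro a b
  obtain ⟨i, hi⟩ : ∃ i, t a ≤ t (e i) := by
    by_cases ha : a ∈ Set.range e
    · obtain ⟨i, hi⟩ := ha
      exact ⟨i, by rw [hi]⟩
    · exact ⟨⟨0, hr⟩, hex _ a ha⟩
  obtain ⟨x, hx, hxb⟩ : ∃ x, x ∉ Set.range e ∧ t x ≤ t b := by
    by_cases hb : b ∈ Set.range e
    · obtain ⟨j, hj⟩ := hb
      exact ⟨x₁, hx₁, by rw [← hj]; exact hex j x₁ hx₁⟩
    · exact ⟨b, hb, le_refl _⟩
  -- the double sum
  have h1 : ∑ i, t (e i) - ((r : ℝ) / Fintype.card X) * ∑ x, t x =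
      (∑ i : Fin r, ∑ x : X, (t (e i) - t x)) / Fintype.card X := by
    simp only [Finset.sum_sub_distrib, Finset.sum_const, Finset.card_univ, Fintype.card_fin,
      nsmul_eq_mul]
    rw [← Finset.mul_sum]
    field_simp
  rw [h1]
  refine div_le_div_of_nonneg_right ?_ hN.le
  set S := Finset.univ.image e with hS
  have h2 : ∑ i : Fin r, ∑ x : X, (t (e i) - t x) =
      ∑ i : Fin r, ∑ x ∈ Sᶜ, (t (e i) - t x) := by
    have h3 : ∀ i : Fin r, ∑ x : X, (t (e i) - t x) =
        ∑ x ∈ S, (t (e i) - t x) + ∑ x ∈ Sᶜ, (t (e i) - t x) := fun i =>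
      (Finset.sum_add_sum_compl S _).symm
    rw [Finset.sum_congr rfl fun i _ => h3 i, Finset.sum_add_distrib]
    have h4 : ∑ i : Fin r, ∑ x ∈ S, (t (e i) - t x) = 0 := by
      have h5 : ∀ i : Fin r, ∑ x ∈ S, (t (e i) - t x) = ∑ j : Fin r, (t (e i) - t (e j)) := by
        intro i
        rw [hS, Finset.sum_image fun _ _ _ _ h => he h]
      rw [Finset.sum_congr rfl fun i _ => h5 i]
      simp only [Finset.sum_sub_distrib]
      rw [Finset.sum_comm (f := fun i j => t (e i))]
      ring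
    rw [h4, zero_add]
  rw [h2]
  have hmem : ∀ x : X, x ∈ Sᶜ ↔ x ∉ Set.range e := by
    intro x; simp [hS]
  have h6 : ∀ i : Fin r, ∀ x ∈ Sᶜ, 0 ≤ t (e i) - t x := fun i x hx =>
    sub_nonneg.mpr (hex i x ((hmem x).mp hx))
  calc t a - t b ≤ t (e i) - t x := by linarith
    _ ≤ ∑ x ∈ Sᶜ, (t (e i) - t x) :=
        Finset.single_le_sum (f := fun x => t (e i) - t x) (h6 i) ((hmem x).mpr hx)
    _ ≤ ∑ i : Fin r, ∑ x ∈ Sᶜ, (t (e i) - t x) :=
        Finset.single_le_sum (f := fun i => ∑ x ∈ Sᶜ, (t (e i) - t x))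
          (fun i _ => Finset.sum_nonneg (h6 i)) (Finset.mem_univ i)

/-- adding to one coordinate -/
theorem fb_M_update {X : Type} [Fintype X] [DecidableEq X] {r : ℕ} (A : X → Fin r → ℝ)
    (t : X → ℝ) (x : X) (s : ℝ) :
    fb_M A (t + Pi.single x s) =
      fb_M A t + ((Real.exp s - 1) * Real.exp (t x)) • vecMulVec (A x) (A x) := by
  unfold fb_M
  rw [← Finset.add_sum_erase _ _ (Finset.mem_univ x),
    ← Finset.add_sum_erase Finset.univ (fun x => Real.exp (t x) • vecMulVec (A x) (A x))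
      (Finset.mem_univ x)]
  have h : ∑ y ∈ Finset.univ.erase x, Real.exp ((t + Pi.single x s : X → ℝ) y) • vecMulVec (A y) (A y) =
      ∑ y ∈ Finset.univ.erase x, Real.exp (t y) • vecMulVec (A y) (A y) := by
    refine Finset.sum_congr rfl fun y hy => ?_
    rw [Pi.add_apply, Pi.single_eq_of_ne (Finset.ne_of_mem_erase hy), add_zero]
  rw [h, Pi.add_apply, Pi.single_eq_same, Real.exp_add]
  rw [add_right_comm, ← add_smul]
  congr 2
  ring

/-- the potential -/
def fb_F {X : Type} [Fintype X] {r : ℕ} (A : X → Fin r → ℝ) (t : X → ℝ) : ℝ :=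
  (fb_M A t).det * Real.exp (-(((r : ℝ) / Fintype.card X) * ∑ x, t x))

theorem fb_F_cont {X : Type} [Fintype X] {r : ℕ} (A : X → Fin r → ℝ) : Continuous (fb_F A) := by
  unfold fb_F fb_M
  refine Continuous.mul (Continuous.matrix_det ?_) ?_
  · refine continuous_finsetSum _ fun x _ => ?_
    exact (Real.continuous_exp.comp (continuous_apply x)).smul continuous_const
  · refine Real.continuous_exp.comp (Continuous.neg (continuous_const.mul ?_))
    exact continuous_finsetSum _ fun x _ => continuous_apply x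

/-- invariance under constants -/
theorem fb_F_shift {X : Type} [Fintype X] {r : ℕ} (hX : 0 < Fintype.card X)
    (A : X → Fin r → ℝ) (t : X → ℝ) (c : ℝ) : fb_F A (fun x => t x + c) = fb_F A t := by
  have hN : (Fintype.card X : ℝ) ≠ 0 := by exact_mod_cast hX.ne'
  unfold fb_F
  have h1 : fb_M A (fun x => t x + c) = Real.exp c • fb_M A t := by
    unfold fb_M
    rw [Finset.smul_sum]
    refine Finset.sum_congr rfl fun x _ => ?_
    rw [smul_smul, Real.exp_add, mul_comm]
  rw [h1, Matrix.det_smul, Fintype.card_fin, Finset.sum_add_distrib, Finset.sum_const,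
    Finset.card_univ, nsmul_eq_mul, ← Real.exp_nat_mul]
  have h2 : -((r : ℝ) / Fintype.card X * (∑ x, t x + Fintype.card X * c)) =
      -((r : ℝ) / Fintype.card X * ∑ x, t x) + -(r * c) := by
    field_simp
    ring
  rw [h2, Real.exp_add]
  have h3 : Real.exp (r * c) * Real.exp (-(r * c)) = 1 := by
    rw [← Real.exp_add]; simp
  calc Real.exp (r * c) * (fb_M A t).det *
        (Real.exp (-((r : ℝ) / Fintype.card X * ∑ x, t x)) * Real.exp (-(r * c))) =
      (Real.exp (r * c) * Real.exp (-(r * c))) * ((fb_M A t).det *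
        Real.exp (-((r : ℝ) / Fintype.card X * ∑ x, t x))) := by ring
    _ = _ := by rw [h3, one_mul]

/-- the minimiser -/
theorem fb_min {X : Type} [Fintype X] (r : ℕ) (hr : 1 ≤ r) (hX : r < Fintype.card X)
    (A : X → Fin r → ℝ)
    (hA : ∀ e : Fin r → X, Function.Injective e →
      (Matrix.of fun i j : Fin r => A (e i) j).det ≠ 0) :
    ∃ t : X → ℝ, ∀ u : X → ℝ, fb_F A t ≤ fb_F A u := by
  have hX0 : 0 < Fintype.card X := by omega
  have hN : (0 : ℝ) < Fintype.card X := by exact_mod_cast hX0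
  have hne : Nonempty {e : Fin r → X // Function.Injective e} := by
    obtain ⟨f⟩ : Nonempty (Fin r ↪ X) := by
      rw [Function.Embedding.nonempty_iff_card_le]
      simpa using hX.le
    exact ⟨⟨f, f.injective⟩⟩
  obtain ⟨⟨e₀, he₀⟩, hmin⟩ := Finite.exists_min
    (fun e : {e : Fin r → X // Function.Injective e} =>
      (Matrix.of fun i j : Fin r => A (e.1 i) j).det ^ 2)
  set c₀ := (Matrix.of fun i j : Fin r => A (e₀ i) j).det ^ 2 with hc₀
  have hc₀pos : 0 < c₀ := by
    have := hA e₀ he₀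
    positivity
  -- lower bound
  have hlow : ∀ (t : X → ℝ) (a b : X),
      c₀ * Real.exp ((t a - t b) / Fintype.card X) ≤ fb_F A t := by
    intro t a b
    obtain ⟨e, he, hab⟩ := fb_exchange r hr hX t
    have h1 := fb_det_ge A t e he (hA e he)
    have h2 := hmin ⟨e, he⟩
    simp only at h2
    unfold fb_F
    calc c₀ * Real.exp ((t a - t b) / Fintype.card X) ≤
        c₀ * Real.exp (∑ i, t (e i) - ((r : ℝ) / Fintype.card X) * ∑ x, t x) :=
          mul_le_mul_of_nonneg_left (Real.exp_le_exp.mpr (hab a b)) hc₀pos.le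
      _ ≤ (Matrix.of fun i j : Fin r => A (e i) j).det ^ 2 *
          Real.exp (∑ i, t (e i) - ((r : ℝ) / Fintype.card X) * ∑ x, t x) :=
          mul_le_mul_of_nonneg_right h2 (Real.exp_pos _).le
      _ = ((Matrix.of fun i j : Fin r => A (e i) j).det ^ 2 * Real.exp (∑ i, t (e i))) *
          Real.exp (-(((r : ℝ) / Fintype.card X) * ∑ x, t x)) := by
          rw [sub_eq_add_neg, Real.exp_add, mul_assoc]
      _ ≤ _ := mul_le_mul_of_nonneg_right h1 (Real.exp_pos _).le
  have hXne : Nonempty X := Fintype.card_pos_iff.mp hX0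
  obtain ⟨x₀⟩ := hXne
  have hF0 : 0 < fb_F A 0 := lt_of_lt_of_le (by positivity) (hlow 0 x₀ x₀)
  set R : ℝ := Fintype.card X * |Real.log (fb_F A 0 / c₀)| with hR
  have hR0 : 0 ≤ R := by positivity
  have hRbound : fb_F A 0 ≤ c₀ * Real.exp (R / Fintype.card X) := by
    have h1 : R / Fintype.card X = |Real.log (fb_F A 0 / c₀)| := by
      rw [hR]; field_simp
    rw [h1]
    have h2 : fb_F A 0 / c₀ ≤ Real.exp |Real.log (fb_F A 0 / c₀)| := by
      calc fb_F A 0 / c₀ = Real.exp (Real.log (fb_F A 0 / c₀)) :=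
            (Real.exp_log (by positivity)).symm
        _ ≤ _ := Real.exp_le_exp.mpr (le_abs_self _)
    rw [div_le_iff₀ hc₀pos] at h2
    linarith
  obtain ⟨t, ht, htmin⟩ := (isCompact_Icc (a := fun _ : X => -R) (b := fun _ : X => R)).exists_isMinOn
    ⟨0, by
      constructor
      · intro x; simpa using hR0
      · intro x; simpa using hR0⟩ (fb_F_cont A).continuousOn
  refine ⟨t, fun u => ?_⟩
  have h0 : fb_F A t ≤ fb_F A 0 := htmin (by
      constructor
      · intro x; simpa using hR0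
      · intro x; simpa using hR0)
  set u' : X → ℝ := fun x => u x + -u x₀ with hu'
  have hsh : fb_F A u' = fb_F A u := fb_F_shift hX0 A u _
  by_cases hmem : ∀ x, |u' x| ≤ R
  · rw [← hsh]
    refine htmin ⟨fun x => ?_, fun x => ?_⟩
    · exact (abs_le.mp (hmem x)).1
    · exact (abs_le.mp (hmem x)).2
  · push Not at hmem
    obtain ⟨x, hx⟩ := hmem
    have h1 : ∃ a b : X, R ≤ u a - u b := by
      rcases abs_cases (u' x) with ⟨h2, _⟩ | ⟨h2, _⟩
      · exact ⟨x, x₀, by rw [h2] at hx; simp only [hu'] at hx; linarith⟩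
      · exact ⟨x₀, x, by rw [h2] at hx; simp only [hu'] at hx; linarith⟩
    obtain ⟨a, b, hab⟩ := h1
    calc fb_F A t ≤ fb_F A 0 := h0
      _ ≤ c₀ * Real.exp (R / Fintype.card X) := hRbound
      _ ≤ c₀ * Real.exp ((u a - u b) / Fintype.card X) :=
          mul_le_mul_of_nonneg_left (Real.exp_le_exp.mpr
            (div_le_div_of_nonneg_right hab hN.le)) hc₀pos.le
      _ ≤ fb_F A u := hlow u a b

theorem isotropic_pr {X : Type} [Fintype X] (r : ℕ) (hr : 1 ≤ r) (hX : r < Fintype.card X)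
    (A : X → Fin r → ℝ)
    (hA : ∀ e : Fin r → X, Function.Injective e →
      (Matrix.of fun i j : Fin r => A (e i) j).det ≠ 0) :
    ∃ (c : X → ℝ) (C : Matrix (Fin r) (Fin r) ℝ), (∀ x, 0 < c x) ∧ C.det ≠ 0 ∧
      (∀ x, ∑ j, (c x * (C.mulVec (A x)) j) ^ 2 = (r : ℝ) / Fintype.card X) ∧
      ∀ v : Fin r → ℝ, ∑ x, (∑ j, (c x * (C.mulVec (A x)) j) * v j) ^ 2 = ∑ j, v j ^ 2 := by
  classical
  obtain ⟨t, ht⟩ := fb_min r hr hX A hA
  set M := fb_M A t with hM
  -- `M` is positive definite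
  have hdet : 0 < M.det := by
    obtain ⟨e, he, -⟩ := fb_exchange r hr hX t
    have h1 := fb_det_ge A t e he (hA e he)
    have h2 := hA e he
    exact lt_of_lt_of_le (by positivity) h1
  have hMu : IsUnit M.det := isUnit_iff_ne_zero.mpr hdet.ne'
  have hpsd : M.PosSemidef := by
    refine Matrix.PosSemidef.of_dotProduct_mulVec_nonneg (fb_M_herm A t) fun y => ?_
    have h1 := fb_M_quad A t y
    rw [star_trivial, h1]
    positivity
  have hpd : M.PosDef := hpsd.posDef_iff_det_ne_zero.mpr hdet.ne'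
  have hinv : (M⁻¹).PosSemidef := hpd.inv.posSemidef
  obtain ⟨C, hC⟩ : ∃ C : Matrix (Fin r) (Fin r) ℝ, M⁻¹ = Cᵀ * C := by
    open scoped MatrixOrder in
    obtain ⟨C, hC⟩ := CStarAlgebra.nonneg_iff_eq_star_mul_self.mp hinv.nonneg
    exact ⟨C, by rw [hC]; rfl⟩
  have hCdet : C.det ≠ 0 := by
    intro h0
    have h1 : (M⁻¹).det = 0 := by rw [hC, Matrix.det_mul, h0, mul_zero]
    rw [Matrix.det_nonsing_inv, Ring.inverse_eq_inv'] at h1
    exact (inv_ne_zero hdet.ne') h1
  have hCu : IsUnit C.det := isUnit_iff_ne_zero.mpr hCdet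
  have hCtu : IsUnit (Cᵀ).det := by rw [Matrix.det_transpose]; exact hCu
  -- `C M Cᵀ = 1`
  have hCMC : C * M * Cᵀ = 1 := by
    have h1 : M = (Cᵀ * C)⁻¹ := by rw [← hC, Matrix.nonsing_inv_nonsing_inv M hMu]
    rw [h1, Matrix.mul_inv_rev, ← Matrix.mul_assoc, Matrix.mul_nonsing_inv C hCu, Matrix.one_mul,
      Matrix.nonsing_inv_mul _ hCtu]
  -- stationarity
  set ρ : ℝ := (r : ℝ) / Fintype.card X with hρ
  have hell : ∀ x, Real.exp (t x) * (A x ⬝ᵥ (M⁻¹ *ᵥ A x)) = ρ := by
    intro x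
    set ℓ := Real.exp (t x) * (A x ⬝ᵥ (M⁻¹ *ᵥ A x)) with hℓ
    have hdetup : ∀ s : ℝ, (fb_M A (t + Pi.single x s)).det =
        M.det * (1 + (Real.exp s - 1) * ℓ) := by
      intro s
      rw [fb_M_update, ← hM]
      have h1 : ((Real.exp s - 1) * Real.exp (t x)) • vecMulVec (A x) (A x) =
          replicateCol Unit (((Real.exp s - 1) * Real.exp (t x)) • A x) *
            replicateRow Unit (A x) := by
        ext i j
        simp [Matrix.vecMulVec_apply, Matrix.mul_apply]
        ring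
      rw [h1, Matrix.det_add_replicateCol_mul_replicateRow hMu]
      congr 1
      rw [Matrix.det_unique, Matrix.add_apply, Matrix.one_apply_eq]
      congr 1
      rw [Matrix.mul_assoc]
      have h2 : (replicateRow Unit (A x) * (M⁻¹ *
          replicateCol Unit (((Real.exp s - 1) * Real.exp (t x)) • A x))) default default =
          A x ⬝ᵥ (M⁻¹ *ᵥ (((Real.exp s - 1) * Real.exp (t x)) • A x)) := by
        simp only [Matrix.mul_apply, Matrix.replicateRow_apply, Matrix.replicateCol_apply,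
          dotProduct, Matrix.mulVec]
      rw [h2, Matrix.mulVec_smul, dotProduct_smul, smul_eq_mul, hℓ]
      ring
    have hFup : ∀ s : ℝ, fb_F A (t + Pi.single x s) =
        fb_F A t * ((1 + (Real.exp s - 1) * ℓ) * Real.exp (-(ρ * s))) := by
      intro s
      unfold fb_F
      rw [hdetup s, ← hM, ← hρ]
      have h1 : ∑ y, (t + Pi.single x s : X → ℝ) y = ∑ y, t y + s := by
        simp [Finset.sum_add_distrib]
      have h2 : -(ρ * (∑ y, t y + s)) = -(ρ * ∑ y, t y) + -(ρ * s) := by ring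
      rw [h1, h2, Real.exp_add]
      ring
    have hFpos : 0 < fb_F A t := by
      unfold fb_F
      rw [← hM]
      positivity
    -- the function of `s` has a minimum at `0`
    have hmin : IsMinOn (fun s : ℝ => (1 + (Real.exp s - 1) * ℓ) * Real.exp (-(ρ * s)))
        Set.univ 0 := by
      intro s _
      have h1 := ht (t + Pi.single x s)
      rw [hFup s] at h1
      have h2 : 1 ≤ (1 + (Real.exp s - 1) * ℓ) * Real.exp (-(ρ * s)) := by
        by_contra hcon
        push Not at hcon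
        nlinarith
      simpa using h2
    have hlocal : IsLocalMin (fun s : ℝ => (1 + (Real.exp s - 1) * ℓ) * Real.exp (-(ρ * s))) 0 :=
      hmin.isLocalMin Filter.univ_mem
    have hderiv : HasDerivAt (fun s : ℝ => (1 + (Real.exp s - 1) * ℓ) * Real.exp (-(ρ * s)))
        (ℓ - ρ) 0 := by
      have h1 : HasDerivAt (fun s : ℝ => 1 + (Real.exp s - 1) * ℓ) (Real.exp 0 * ℓ) 0 :=
        (((Real.hasDerivAt_exp 0).sub_const 1).mul_const ℓ).const_add 1
      have h2 : HasDerivAt (fun s : ℝ => Real.exp (-(ρ * s))) (Real.exp (-(ρ * 0)) * (-(ρ * 1))) 0 :=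
        (((hasDerivAt_id (0 : ℝ)).const_mul ρ).neg).exp
      have h3 := h1.mul h2
      have h4 : Real.exp 0 * ℓ * Real.exp (-(ρ * 0)) +
          (1 + (Real.exp 0 - 1) * ℓ) * (Real.exp (-(ρ * 0)) * (-(ρ * 1))) = ℓ - ρ := by
        simp
        ring
      rw [h4] at h3
      exact h3
    have := hlocal.hasDerivAt_eq_zero hderiv
    linarith
  have hsq : ∀ x, Real.exp (t x / 2) * Real.exp (t x / 2) = Real.exp (t x) := by
    intro x
    rw [← Real.exp_add]; ring_nf
  refine ⟨fun x => Real.exp (t x / 2), C, fun x => Real.exp_pos _, hCdet, fun x => ?_, fun v => ?_⟩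
  · have h1 : ∑ j, (Real.exp (t x / 2) * (C *ᵥ A x) j) ^ 2 =
        Real.exp (t x) * ((C *ᵥ A x) ⬝ᵥ (C *ᵥ A x)) := by
      rw [← hsq x]
      unfold dotProduct
      rw [Finset.mul_sum]
      refine Finset.sum_congr rfl fun j _ => ?_
      ring
    rw [h1, ← hell x, hC, ← Matrix.mulVec_mulVec, Matrix.dotProduct_mulVec (A x),
      Matrix.vecMul_transpose]
  · have h1 : ∀ x, (∑ j, Real.exp (t x / 2) * (C *ᵥ A x) j * v j) ^ 2 =
        Real.exp (t x) * (A x ⬝ᵥ (Cᵀ *ᵥ v)) ^ 2 := by
      intro x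
      have h2 : ∑ j, Real.exp (t x / 2) * (C *ᵥ A x) j * v j =
          Real.exp (t x / 2) * ((C *ᵥ A x) ⬝ᵥ v) := by
        unfold dotProduct
        rw [Finset.mul_sum]
        refine Finset.sum_congr rfl fun j _ => ?_
        ring
      have h3 : (C *ᵥ A x) ⬝ᵥ v = A x ⬝ᵥ (Cᵀ *ᵥ v) := by
        rw [Matrix.dotProduct_mulVec, Matrix.vecMul_transpose]
      rw [h2, h3, ← hsq x]
      ring
    rw [Finset.sum_congr rfl fun x _ => h1 x, ← fb_M_quad, ← hM]
    have h4 : (Cᵀ *ᵥ v) ⬝ᵥ (M *ᵥ (Cᵀ *ᵥ v)) = v ⬝ᵥ ((C * M * Cᵀ) *ᵥ v) := by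
      rw [← Matrix.mulVec_mulVec, ← Matrix.mulVec_mulVec, Matrix.dotProduct_mulVec v C,
        ← Matrix.mulVec_transpose]
    rw [h4, hCMC, Matrix.one_mulVec]
    unfold dotProduct
    refine Finset.sum_congr rfl fun j _ => ?_
    ring

end

end Pool.Agent.Lib_helper76.LD
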